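import Pool.Agent.Q309.DF.Emb
import Pool.Agent.Q309.DU.Run
import Pool.Agent.Q1.SL.MordK

/-!
Points of projective varieties over difference fields given by linear difference equations.
-/

set_option autoImplicit false

namespace Pool.Agent.Q309.DF

open MvPolynomial
open Pool.Agent.Q309.DU
open Pool.Agent.Q1.SL

variable {n : ℕ}

/-- Let `σ` be an endomorphism of the extension `L` of `ℂ`. The point of the projective `n`-space over
`L` with the homogeneous coordinates `x` is given by linear difference equations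
`∑ P_k(t) σ^k(x_j) = 0` of order at most `r`, where the `P_k` are polynomials of degree at most `e`,
not all zero, whose coefficients are fixed by `σ`, and `t` is an element of `L` with
`σ(t) = α t + β`, where `α` and `β` are fixed by `σ`. -/
structure DPt {L : Type} [Field L] [Algebra ℂ L] (r e : ℕ) (σ : L →ₐ[ℂ] L) (t : L)
    (x : Fin (n + 1) → L) : Prop where
  ne : x ≠ 0
  aff : ∃ α β, σ α = α ∧ σ β = β ∧ σ t = α * t + β
  eqn : ∀ j, ∃ P : ℕ → Polynomial L, (∃ k ≤ r, P k ≠ 0) ∧ (∀ k, (P k).natDegree ≤ e) ∧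
    (∀ k i, σ ((P k).coeff i) = (P k).coeff i) ∧
      ∑ k ∈ Finset.range (r + 1), (P k).eval t * (σ ^ k) (x j) = 0

theorem exists_sub {k0 L : Type} [Field k0] [Countable k0] [Field L] [Algebra k0 L] (C : Set L)
    (hC : C.Countable) : ∃ (L0 : Type) (_ : Field L0) (_ : Algebra k0 L0) (_ : Countable L0)
      (ι : L0 →ₐ[k0] L), ∀ c ∈ C, ∃ a, ι a = c := by
  have hL : Cardinal.mk (IntermediateField.adjoin k0 C) ≤ Cardinal.aleph0 := by
    refine (IntermediateField.cardinalMk_adjoin_le k0 C).trans ?_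
    exact max_le (max_le Cardinal.mk_le_aleph0 hC.le_aleph0) le_rfl
  exact ⟨IntermediateField.adjoin k0 C, inferInstance, inferInstance,
    Cardinal.mk_le_aleph0_iff.1 hL, (IntermediateField.adjoin k0 C).val, fun c hc =>
      ⟨⟨c, IntermediateField.subset_adjoin k0 C hc⟩, rfl⟩⟩

theorem pow_fix {L : Type} [Field L] [Algebra ℂ L] {σ : L →ₐ[ℂ] L} {a : L} (h : σ a = a) (m : ℕ) :
    (σ ^ m) a = a := by
  induction m with
  | zero => rfl
  | succ m ih => rw [pow_succ, AlgHom.mul_apply, h, ih]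

theorem pow_inj {L : Type} [Field L] [Algebra ℂ L] (σ : L →ₐ[ℂ] L) (m : ℕ) :
    Function.Injective (σ ^ m) := (σ ^ m).toRingHom.injective

/-- **From sequences to difference fields.** -/
theorem core {r e d : ℕ} (S0 : Finset (MvPolynomial (Fin (n + 1)) ℂ))
    (G : MvPolynomial (Fin (n + 1)) ℂ)
    (hruns : ∀ (L0 : Type) [Field L0] (τ : L0 →+* ℂ) (x0 : ℕ → Fin (n + 1) → L0), DSeq r e d x0 →
      (∀ m ≤ d, ∀ F ∈ S0, eval (fun j => τ (x0 m j)) F = 0) →
        (∃ i j, i < j ∧ j ≤ d ∧ ∀ u v, x0 i u * x0 j v = x0 i v * x0 j u) ∨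
          ∃ m ≤ d, eval (fun j => τ (x0 m j)) G = 0)
    {L : Type} [Field L] [Algebra ℂ L] {σ : L →ₐ[ℂ] L} {t : L} {x : Fin (n + 1) → L}
    (hx : DPt r e σ t x) (ht : ∀ k, 0 < k → k ≤ d → (σ ^ k) t ≠ t)
    (hX : ∀ F ∈ S0, aeval x F = 0) :
    (∃ k, 0 < k ∧ k ≤ d ∧ ∀ u v, (σ ^ k) (x u) * x v = (σ ^ k) (x v) * x u) ∨ aeval x G = 0 := by
  classical
  obtain ⟨α, β, hα, hβ, hαβ⟩ := hx.aff
  choose P hP0 hPd hPc hP using hx.eqn
  -- countable fields
  obtain ⟨k0, _, _, hk0, -, hcoef⟩ := exists_ctbleK (k := ℂ)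
    ((⋃ F ∈ S0, (F.coeffs : Set ℂ)) ∪ (G.coeffs : Set ℂ)) (by
      refine Set.Countable.union ?_ G.coeffs.countable_toSet
      exact Set.Countable.biUnion S0.countable_toSet fun F _ => F.coeffs.countable_toSet)
  have hk0' : Countable k0 := hk0
  have hliftF : ∀ F ∈ S0, ∃ F' : MvPolynomial (Fin (n + 1)) k0, map (algebraMap k0 ℂ) F' = F :=
    fun F hF => mem_range_map_iff_coeffs_subset.2
      fun c hc => hcoef c (Or.inl (Set.mem_biUnion (x := F) hF hc))
  obtain ⟨G', hG'⟩ : ∃ G' : MvPolynomial (Fin (n + 1)) k0, map (algebraMap k0 ℂ) G' = G :=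
    mem_range_map_iff_coeffs_subset.2 fun c hc => hcoef c (Or.inr hc)
  let _ : Algebra k0 L := ((algebraMap ℂ L).comp (algebraMap k0 ℂ)).toAlgebra
  have _ : IsScalarTower k0 ℂ L := IsScalarTower.of_algebraMap_eq fun _ => rfl
  let C1 : Set L := (⋃ (m : ℕ) (j : Fin (n + 1)), {(σ ^ m) (x j)}) ∪
    ((⋃ m : ℕ, {(σ ^ m) t}) ∪ ({α, β} ∪
      ⋃ (j : Fin (n + 1)) (k : ℕ) (i : ℕ), {(P j k).coeff i}))
  have hC1 : C1.Countable := by
    refine Set.Countable.union ?_ (Set.Countable.union ?_ (Set.Countable.union ?_ ?_))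
    · exact Set.countable_iUnion fun m => Set.countable_iUnion fun j => Set.countable_singleton _
    · exact Set.countable_iUnion fun m => Set.countable_singleton _
    · exact (Set.countable_singleton _).insert _
    · exact Set.countable_iUnion fun j => Set.countable_iUnion fun k =>
        Set.countable_iUnion fun i => Set.countable_singleton _
  obtain ⟨L0, _, _, _, ι, hι⟩ := exists_sub (k0 := k0) C1 hC1
  have hιinj : Function.Injective ι := ι.toRingHom.injective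
  choose x0 hx0 using fun (m : ℕ) (j : Fin (n + 1)) => hι ((σ ^ m) (x j)) (by
    refine Or.inl ?_
    simp only [Set.mem_iUnion]
    exact ⟨m, j, rfl⟩)
  choose t0 ht0 using fun m : ℕ => hι ((σ ^ m) t) (by
    refine Or.inr (Or.inl ?_)
    simp only [Set.mem_iUnion]
    exact ⟨m, rfl⟩)
  obtain ⟨α0, hα0⟩ := hι α (Or.inr (Or.inr (Or.inl (Or.inl rfl))))
  obtain ⟨β0, hβ0⟩ := hι β (Or.inr (Or.inr (Or.inl (Or.inr rfl))))
  have hPl : ∀ j k, ∃ Q : Polynomial L0, Q.map (ι : L0 →+* L) = P j k := by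
    intro j k
    rw [← Polynomial.mem_lifts, Polynomial.lifts_iff_coeff_lifts]
    intro i
    obtain ⟨a, ha⟩ := hι ((P j k).coeff i) (by
      refine Or.inr (Or.inr (Or.inr ?_))
      simp only [Set.mem_iUnion]
      exact ⟨j, k, i, rfl⟩)
    exact ⟨a, ha⟩
  choose P0 hP0' using hPl
  have hσP : ∀ j k m, (σ ^ m) ((P j k).eval t) = (P j k).eval ((σ ^ m) t) := by
    intro j k m
    have h1 : (P j k).map ((σ ^ m : L →ₐ[ℂ] L) : L →+* L) = P j k := by
      ext i
      rw [Polynomial.coeff_map]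
      exact pow_fix (hPc j k i) m
    have h2 := Polynomial.eval₂_at_apply ((σ ^ m : L →ₐ[ℂ] L) : L →+* L) (p := P j k) t
    rw [← Polynomial.eval_map, h1] at h2
    exact h2.symm
  have hseq : DSeq r e d x0 := by
    refine ⟨fun m _ h0 => hx.ne ?_, t0, α0, β0, fun m => ?_, fun i j hij hj h0 => ?_, fun j => ?_⟩
    · funext j
      have h1 := congrArg ι (congrFun h0 j)
      rw [hx0, Pi.zero_apply, map_zero] at h1
      exact pow_inj σ m (by rw [h1, Pi.zero_apply, map_zero])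
    · apply hιinj
      rw [map_add, map_mul, ht0, ht0, hα0, hβ0, pow_succ, AlgHom.mul_apply, hαβ, map_add, map_mul,
        pow_fix hα, pow_fix hβ]
    · have h1 := congrArg ι h0
      rw [ht0, ht0] at h1
      refine ht (j - i) (by omega) (by omega) (pow_inj σ i ?_)
      rw [h1, ← AlgHom.mul_apply, ← pow_add, show i + (j - i) = j by omega]
    · obtain ⟨k, hk, hPk⟩ := hP0 j
      refine ⟨P0 j, ⟨k, hk, fun h0 => hPk ?_⟩, fun k => ?_, fun m _ => ?_⟩
      · rw [← hP0', h0, Polynomial.map_zero]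
      · have h1 := hPd j k
        rwa [← hP0', Polynomial.natDegree_map] at h1
      · apply hιinj
        rw [map_zero, map_sum]
        have h1 := congrArg (σ ^ m) (hP j)
        rw [map_zero, map_sum] at h1
        rw [← h1]
        refine Finset.sum_congr rfl fun k _ => ?_
        rw [map_mul, map_mul, hx0, hσP, pow_add, AlgHom.mul_apply, ← hP0' j k,
          Polynomial.eval_map, ← ht0]
        congr 1
        exact (Polynomial.eval₂_at_apply (ι : L0 →+* L) (p := P0 j k) (t0 m)).symm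
  obtain ⟨τ⟩ := rel_embed k0 L0
  have hval : ∀ (F' : MvPolynomial (Fin (n + 1)) k0) (m : ℕ),
      eval (fun j => τ (x0 m j)) (map (algebraMap k0 ℂ) F') = 0 ↔
        aeval x (map (algebraMap k0 ℂ) F') = 0 := by
    intro F' m
    have h1 : eval (fun j => τ (x0 m j)) (map (algebraMap k0 ℂ) F') = τ (aeval (x0 m) F') := by
      rw [eval_map, MvPolynomial.comp_aeval_apply, aeval_def]
    have h2 : ι (aeval (x0 m) F') = (σ ^ m) (aeval x (map (algebraMap k0 ℂ) F')) := by
      rw [MvPolynomial.comp_aeval_apply, MvPolynomial.comp_aeval_apply,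
        MvPolynomial.aeval_map_algebraMap]
      congr 1
      congr 1
      funext j
      exact hx0 m j
    rw [h1, map_eq_zero, ← map_eq_zero ι, h2]
    exact ⟨fun h => pow_inj σ m (h.trans (map_zero _).symm), fun h => by rw [h, map_zero]⟩
  rcases hruns L0 (τ : L0 →+* ℂ) x0 hseq (fun m _ F hF => by
    obtain ⟨F', rfl⟩ := hliftF F hF
    exact (hval F' m).2 (hX _ hF)) with ⟨i, j, hij, hj, h⟩ | ⟨m, -, h⟩
  · refine Or.inl ⟨j - i, by omega, by omega, fun u v => ?_⟩
    have h1 := congrArg ι (h v u)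
    rw [map_mul, map_mul, hx0, hx0, hx0, hx0, show j = i + (j - i) by omega, pow_add,
      AlgHom.mul_apply, AlgHom.mul_apply, ← map_mul, ← map_mul] at h1
    have h2 := pow_inj σ i h1
    linear_combination h2
  · right
    subst hG'
    exact (hval G' m).1 h

/-- **Difference fields**, uniformly in the variety, the field and the point. -/
theorem dpt_uniform (n D r e : ℕ) : ∃ d : ℕ, ∀ S : Set (MvPolynomial (Fin (n + 1)) ℂ),
    (∀ F ∈ S, ∃ e, e ≤ D ∧ F.IsHomogeneous e) → ∀ (L : Type) [Field L] [Algebra ℂ L]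
      (σ : L →ₐ[ℂ] L) (t : L) (x : Fin (n + 1) → L), DPt r e σ t x →
        (∀ k, 0 < k → k ≤ d → (σ ^ k) t ≠ t) → (∀ F ∈ S, aeval x F = 0) →
        (∃ k, 0 < k ∧ k ≤ d ∧ ∀ u v, (σ ^ k) (x u) * x v = (σ ^ k) (x v) * x u) ∨
          ∀ G : MvPolynomial (Fin (n + 1)) ℂ, (∃ e, e ≤ D ∧ G.IsHomogeneous e) →
            RatIn S G d → aeval x G = 0 := by
  obtain ⟨d, hd⟩ := runs_uniform n D r e
  refine ⟨d, fun S hS L _ _ σ t x hx ht hX => ?_⟩
  by_cases hper : ∃ k, 0 < k ∧ k ≤ d ∧ ∀ u v, (σ ^ k) (x u) * x v = (σ ^ k) (x v) * x u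
  · exact Or.inl hper
  · refine Or.inr fun G hG hrat => ?_
    obtain ⟨S0, hS0, hS0'⟩ := exists_finite_forms S
    refine (core S0 G (fun L0 _ τ x0 hx0 h0 => ?_) hx ht fun F hF =>
      hX F (hS0 F hF)).resolve_left hper
    rcases hd S0 (fun F hF => hS F (hS0 F hF)) L0 τ x0 hx0 h0 with h1 | ⟨m, hm, h1⟩
    · exact Or.inl h1
    · exact Or.inr ⟨m, hm, h1 G hG fun p hp1 hp2 hp3 => hrat p hp1 (hS0' _ p hp2) hp3⟩

/-- **Difference fields**, for one variety and forms of arbitrary degree. -/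
theorem dpt_special (S : Set (MvPolynomial (Fin (n + 1)) ℂ))
    (hS : ∀ F ∈ S, ∃ e, F.IsHomogeneous e) (r e : ℕ) : ∃ d : ℕ,
    ∀ (L : Type) [Field L] [Algebra ℂ L]
      (σ : L →ₐ[ℂ] L) (t : L) (x : Fin (n + 1) → L), DPt r e σ t x →
        (∀ k, 0 < k → k ≤ d → (σ ^ k) t ≠ t) → (∀ F ∈ S, aeval x F = 0) →
        (∃ k, 0 < k ∧ k ≤ d ∧ ∀ u v, (σ ^ k) (x u) * x v = (σ ^ k) (x v) * x u) ∨
          ∀ G : MvPolynomial (Fin (n + 1)) ℂ, (∃ e, G.IsHomogeneous e) →
            RatIn S G d → aeval x G = 0 := by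
  obtain ⟨S0, hS0, hS0'⟩ := exists_finite_forms S
  obtain ⟨d, hd⟩ := runs_special (S0 : Set (MvPolynomial (Fin (n + 1)) ℂ))
    (fun F hF => hS F (hS0 F hF)) r e
  refine ⟨d, fun L _ _ σ t x hx ht hX => ?_⟩
  by_cases hper : ∃ k, 0 < k ∧ k ≤ d ∧ ∀ u v, (σ ^ k) (x u) * x v = (σ ^ k) (x v) * x u
  · exact Or.inl hper
  · refine Or.inr fun G hG hrat => ?_
    refine (core S0 G (fun L0 _ τ x0 hx0 h0 => ?_) hx ht fun F hF =>
      hX F (hS0 F hF)).resolve_left hper
    rcases hd L0 τ x0 hx0 h0 with h1 | ⟨m, hm, h1⟩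
    · exact Or.inl h1
    · exact Or.inr ⟨m, hm, h1 G hG fun p hp1 hp2 hp3 => hrat p hp1 (hS0' _ p hp2) hp3⟩

end Pool.Agent.Q309.DF
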