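import Mathlib

/-!
Embeddings in `ℂ` of countable extensions of countable subfields of `ℂ`.
-/

set_option autoImplicit false

namespace Pool.Agent.Q309.DF

open Cardinal

/-- **Countable extensions of a countable subfield `k0` of `ℂ` can be embedded in `ℂ` over
`k0`.** -/
theorem rel_embed (k0 L : Type) [Field k0] [Countable k0] [Algebra k0 ℂ] [Field L] [Algebra k0 L]
    [Countable L] : Nonempty (L →ₐ[k0] ℂ) := by
  obtain ⟨s, hs⟩ := exists_isTranscendenceBasis k0 L
  obtain ⟨b, hb⟩ := exists_isTranscendenceBasis k0 ℂ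
  have hbc : ℵ₀ ≤ #b := by
    by_contra hcon
    push Not at hcon
    have h1 := IsAlgClosed.cardinal_le_max_transcendence_basis' (fun z : b => (z : ℂ)) hb
    have h2 : #ℂ ≤ ℵ₀ := h1.trans (max_le (max_le Cardinal.mk_le_aleph0 hcon.le) le_rfl)
    rw [Cardinal.mk_complex] at h2
    exact absurd h2 (not_le.2 aleph0_lt_continuum)
  have hsb : #s ≤ #b := (Cardinal.mk_le_aleph0).trans hbc
  obtain ⟨g⟩ : Nonempty (s ↪ b) := Cardinal.le_def _ _ |>.1 hsb
  have hgi : AlgebraicIndependent k0 fun z : s => ((g z : b) : ℂ) := hb.1.comp g g.injective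
  -- the subalgebra generated by the basis
  let A := Algebra.adjoin k0 (Set.range ((↑) : s → L))
  let φ : A →ₐ[k0] ℂ := (MvPolynomial.aeval fun z : s => ((g z : b) : ℂ)).comp
    (hs.1.aevalEquiv.symm : A →ₐ[k0] MvPolynomial s k0)
  have hφ : Function.Injective φ := by
    intro x y hxy
    exact hs.1.aevalEquiv.symm.injective (hgi hxy)
  let _ : Algebra A ℂ := (φ : A →+* ℂ).toAlgebra
  have _ : IsScalarTower k0 A ℂ := IsScalarTower.of_algebraMap_eq fun z => (φ.commutes z).symm
  have _ : FaithfulSMul A ℂ := (faithfulSMul_iff_algebraMap_injective A ℂ).2 hφ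
  have _ : Algebra.IsAlgebraic A L := hs.isAlgebraic
  let ψ : L →ₐ[A] ℂ := IsAlgClosed.lift
  exact ⟨ψ.restrictScalars k0⟩

end Pool.Agent.Q309.DF
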