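import Pool.Agent.Q309.DF.Main
import Pool.Agent.Q309.DU.UniF

/-!
Formal curves given by linear `q`-difference equations.
-/

set_option autoImplicit false

namespace Pool.Agent.Q309.DF

open MvPolynomial
open Pool.Agent.Q309.DU
open Pool.Agent.Q1.SL

variable {n : ℕ}

/-- the formal point is constant -/
def FConst (x : Fin (n + 1) → PowerSeries ℂ) : Prop :=
  ∃ (g : PowerSeries ℂ) (c : Fin (n + 1) → ℂ), ∀ j, x j = PowerSeries.C (c j) * g

/-- The formal curve in the projective `n`-space with the homogeneous coordinates `x`, which are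
formal power series (possibly divergent), is given by linear `q`-difference equations
`∑ P_k(z) x_j(q^k z) = 0` of order at most `r` with polynomials `P_k` of degree at most `e`, not all
zero. -/
def QForm (r e : ℕ) (q : ℂ) (x : Fin (n + 1) → PowerSeries ℂ) : Prop :=
  x ≠ 0 ∧ ∀ j, ∃ P : ℕ → Polynomial ℂ, (∃ k ≤ r, P k ≠ 0) ∧ (∀ k, (P k).natDegree ≤ e) ∧
    ∑ k ∈ Finset.range (r + 1), (P k : PowerSeries ℂ) * PowerSeries.rescale (q ^ k) (x j) = 0

/-- invariant formal points are constant -/
theorem fconst_of {q : ℂ} (hq : ∀ m : ℕ, 0 < m → q ^ m ≠ 1) (hq0 : q ≠ 0)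
    {x : Fin (n + 1) → PowerSeries ℂ} (hx : x ≠ 0)
    (h : ∀ u v, PowerSeries.rescale q (x u) * x v = PowerSeries.rescale q (x v) * x u) :
    FConst x := by
  classical
  obtain ⟨l, hl⟩ := Function.ne_iff.1 hx
  have hl' : x l ≠ 0 := hl
  -- orders
  have hord : ∀ f : PowerSeries ℂ, f ≠ 0 → ∃ N : ℕ, PowerSeries.coeff N f ≠ 0 ∧
      ∀ i < N, PowerSeries.coeff i f = 0 := by
    intro f hf
    have h1 : ∃ N, PowerSeries.coeff N f ≠ 0 := by
      by_contra hcon
      push Not at hcon
      exact hf (PowerSeries.ext fun i => by rw [hcon i, map_zero])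
    exact ⟨Nat.find h1, Nat.find_spec h1, fun i hi => by
      have := Nat.find_min h1 hi
      push Not at this
      exact this⟩
  have hmul : ∀ (f g : PowerSeries ℂ) (a b : ℕ), (∀ i < a, PowerSeries.coeff i f = 0) →
      (∀ i < b, PowerSeries.coeff i g = 0) →
      PowerSeries.coeff (a + b) (f * g) = PowerSeries.coeff a f * PowerSeries.coeff b g := by
    intro f g a b hf hg
    rw [PowerSeries.coeff_mul, Finset.sum_eq_single (a, b)]
    · rintro ⟨i, j⟩ hij hne
      rw [Finset.HasAntidiagonal.mem_antidiagonal] at hij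
      rcases lt_trichotomy i a with h1 | h1 | h1
      · rw [hf i h1, zero_mul]
      · exfalso
        apply hne
        subst h1
        congr 1
        simp only at hij
        omega
      · rw [hg j (by simp only at hij; omega), mul_zero]
    · intro h1
      exact absurd ((Finset.HasAntidiagonal.mem_antidiagonal (n := a + b) (a := (a, b))).2 rfl)
        h1
  obtain ⟨N, hN1, hN2⟩ := hord (x l) hl'
  refine ⟨x l, fun j => PowerSeries.coeff N (x j) / PowerSeries.coeff N (x l), fun j => ?_⟩
  set c := PowerSeries.coeff N (x j) / PowerSeries.coeff N (x l) with hc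
  set y := x j - PowerSeries.C c * x l with hy
  have hyN : PowerSeries.coeff N y = 0 := by
    rw [hy, map_sub, PowerSeries.coeff_C_mul, hc, div_mul_cancel₀ _ hN1, sub_self]
  have hrel : PowerSeries.rescale q y * x l = PowerSeries.rescale q (x l) * y := by
    have h1 : PowerSeries.rescale q (PowerSeries.C c) = PowerSeries.C c := by
      ext i
      rw [PowerSeries.coeff_rescale, PowerSeries.coeff_C]
      split_ifs with hi
      · rw [hi, pow_zero, one_mul]
      · rw [mul_zero]
    rw [hy, map_sub, map_mul, h1]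
    have h2 := h j l
    linear_combination h2
  by_contra hne
  have hy0 : y ≠ 0 := fun h0 => hne (sub_eq_zero.1 h0)
  obtain ⟨M, hM1, hM2⟩ := hord y hy0
  have hres : ∀ (f : PowerSeries ℂ) (a : ℕ), (∀ i < a, PowerSeries.coeff i f = 0) →
      ∀ i < a, PowerSeries.coeff i (PowerSeries.rescale q f) = 0 := by
    intro f a hf i hi
    rw [PowerSeries.coeff_rescale, hf i hi, mul_zero]
  have h1 := congrArg (PowerSeries.coeff (M + N)) hrel
  rw [hmul _ _ M N (hres y M hM2) hN2, add_comm M N, hmul _ _ N M (hres (x l) N hN2) hM2,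
    PowerSeries.coeff_rescale, PowerSeries.coeff_rescale] at h1
  have h2 : q ^ M = q ^ N := by
    have h3 : PowerSeries.coeff M y * PowerSeries.coeff N (x l) ≠ 0 := mul_ne_zero hM1 hN1
    apply mul_right_cancel₀ h3
    linear_combination h1
  have hMN : M ≠ N := by
    rintro rfl
    exact hM1 hyN
  rcases lt_or_gt_of_ne hMN with h3 | h3
  · apply hq (N - M) (by omega)
    have h4 : q ^ N = q ^ M * q ^ (N - M) := by rw [← pow_add]; congr 1; omega
    rw [h4] at h2
    apply mul_left_cancel₀ (pow_ne_zero M hq0)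
    rw [← h2, mul_one]
  · apply hq (M - N) (by omega)
    have h4 : q ^ M = q ^ N * q ^ (M - N) := by rw [← pow_add]; congr 1; omega
    rw [h4] at h2
    apply mul_left_cancel₀ (pow_ne_zero N hq0)
    rw [h2, mul_one]

/-- the field of formal Laurent series -/
abbrev FF := FractionRing (PowerSeries ℂ)

/-- the embedding of the power series -/
noncomputable def emb : PowerSeries ℂ →ₐ[ℂ] FF := Algebra.algHom ℂ (PowerSeries ℂ) FF

theorem emb_inj : Function.Injective emb := IsFractionRing.injective (PowerSeries ℂ) FF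

theorem sg_inj {q : ℂ} (hq0 : q ≠ 0) :
    Function.Injective (emb.comp (PowerSeries.rescaleAlgHom q)) := by
  intro a b hab
  have h1 : emb (PowerSeries.rescaleAlgHom q a) = emb (PowerSeries.rescaleAlgHom q b) := hab
  have h2 := emb_inj h1
  have h3 : ∀ f : PowerSeries ℂ, PowerSeries.rescaleAlgHom q f = PowerSeries.rescale q f := fun f =>
    RingHom.congr_fun (PowerSeries.coe_rescaleAlgHom q) f
  rw [h3, h3] at h2
  ext i
  have h4 := congrArg (PowerSeries.coeff i) h2
  rw [PowerSeries.coeff_rescale, PowerSeries.coeff_rescale] at h4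
  exact mul_left_cancel₀ (pow_ne_zero i hq0) h4

/-- the dilation of the field of Laurent series -/
noncomputable def sg {q : ℂ} (hq0 : q ≠ 0) : FF →ₐ[ℂ] FF := IsFractionRing.liftAlgHom (sg_inj hq0)

theorem sg_emb {q : ℂ} (hq0 : q ≠ 0) (f : PowerSeries ℂ) :
    sg hq0 (emb f) = emb (PowerSeries.rescale q f) := by
  have h1 : sg hq0 (emb f) = (emb.comp (PowerSeries.rescaleAlgHom q)) f := by
    unfold sg
    rw [IsFractionRing.liftAlgHom_apply]
    exact IsFractionRing.lift_algebraMap _ f
  rw [h1]
  change emb (PowerSeries.rescaleAlgHom q f) = _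
  congr 1
  exact RingHom.congr_fun (PowerSeries.coe_rescaleAlgHom q) f

theorem sg_pow {q : ℂ} (hq0 : q ≠ 0) (k : ℕ) (f : PowerSeries ℂ) :
    (sg hq0 ^ k) (emb f) = emb (PowerSeries.rescale (q ^ k) f) := by
  induction k generalizing f with
  | zero =>
    rw [pow_zero, pow_zero, PowerSeries.rescale_one]
    rfl
  | succ k ih =>
    rw [pow_succ, AlgHom.mul_apply, sg_emb, ih, PowerSeries.rescale_rescale, pow_succ,
      mul_comm (q ^ k) q]

theorem emb_poly (P : Polynomial ℂ) :
    (P.map (algebraMap ℂ FF)).eval (emb PowerSeries.X) = emb (P : PowerSeries ℂ) := by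
  rw [Polynomial.eval_map, ← Polynomial.aeval_def, Polynomial.aeval_algHom_apply]
  congr 1
  induction P using Polynomial.induction_on' with
  | add p q hp hq => rw [map_add, hp, hq, Polynomial.coe_add]
  | monomial k a =>
    rw [Polynomial.aeval_monomial, Polynomial.coe_monomial, PowerSeries.monomial_eq_C_mul_X_pow]
    rfl

/-- **Formal curves are points over a difference field.** -/
theorem dpt_of_form {r e : ℕ} {q : ℂ} (hq0 : q ≠ 0) {x : Fin (n + 1) → PowerSeries ℂ}
    (h : QForm r e q x) : DPt r e (sg hq0) (emb PowerSeries.X) fun j => emb (x j) := by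
  obtain ⟨hx, h⟩ := h
  refine ⟨fun h0 => hx (funext fun j => emb_inj (by
    rw [congrFun h0 j, Pi.zero_apply, Pi.zero_apply, map_zero])),
    ⟨algebraMap ℂ FF q, 0, AlgHom.commutes _ _, map_zero _, ?_⟩, fun j => ?_⟩
  · rw [sg_emb, PowerSeries.rescale_X, map_mul, add_zero]
    rfl
  · obtain ⟨P, ⟨k0, hk0, hP0⟩, hPd, hP⟩ := h j
    refine ⟨fun k => (P k).map (algebraMap ℂ FF), ⟨k0, hk0, ?_⟩, fun k => ?_, fun k i => ?_, ?_⟩
    · rwa [Ne, Polynomial.map_eq_zero_iff (algebraMap ℂ FF).injective]
    · exact Polynomial.natDegree_map_le.trans (hPd k)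
    · rw [Polynomial.coeff_map]
      exact AlgHom.commutes _ _
    · have h1 := congrArg emb hP
      rw [map_zero, map_sum] at h1
      rw [← h1]
      refine Finset.sum_congr rfl fun k _ => ?_
      rw [emb_poly, sg_pow, map_mul]

theorem form_aperiodic {q : ℂ} (hq0 : q ≠ 0) (hq : ∀ m : ℕ, 0 < m → q ^ m ≠ 1)
    {x : Fin (n + 1) → PowerSeries ℂ} (hx : x ≠ 0) {k : ℕ} (hk : 0 < k)
    (h : ∀ u v, (sg hq0 ^ k) (emb (x u)) * emb (x v) = (sg hq0 ^ k) (emb (x v)) * emb (x u)) :
    FConst x := by
  refine fconst_of (q := q ^ k) (fun m hm => ?_) (pow_ne_zero _ hq0) hx fun u v => emb_inj ?_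
  · rw [← pow_mul]
    exact hq _ (Nat.mul_pos hk hm)
  · rw [map_mul, map_mul, ← sg_pow hq0, ← sg_pow hq0]
    exact h u v

theorem X_aperiodic {q : ℂ} (hq0 : q ≠ 0) (hq : ∀ m : ℕ, 0 < m → q ^ m ≠ 1) {k : ℕ} (hk : 0 < k) :
    (sg hq0 ^ k) (emb PowerSeries.X) ≠ emb PowerSeries.X := by
  intro h
  rw [sg_pow] at h
  have h1 := congrArg (PowerSeries.coeff 1) (emb_inj h)
  rw [PowerSeries.coeff_rescale, PowerSeries.coeff_one_X, mul_one, pow_one] at h1
  exact hq k hk h1

/-- **Formal curves**, uniformly. -/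
theorem form_uniform (n D r e : ℕ) : ∃ d : ℕ, ∀ S : Set (MvPolynomial (Fin (n + 1)) ℂ),
    (∀ F ∈ S, ∃ e, e ≤ D ∧ F.IsHomogeneous e) → ∀ q : ℂ, q ≠ 0 → (∀ m : ℕ, 0 < m → q ^ m ≠ 1) →
      ∀ x : Fin (n + 1) → PowerSeries ℂ, QForm r e q x → (∀ F ∈ S, aeval x F = 0) →
        ¬ FConst x → ∀ G : MvPolynomial (Fin (n + 1)) ℂ, (∃ e, e ≤ D ∧ G.IsHomogeneous e) →
          RatIn S G d → aeval x G = 0 := by
  obtain ⟨d, hd⟩ := dpt_uniform n D r e
  refine ⟨d, fun S hS q hq0 hq x hx hX hc G hG hrat => ?_⟩
  have hev : ∀ F : MvPolynomial (Fin (n + 1)) ℂ, aeval (fun j => emb (x j)) F =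
      emb (aeval x F) := fun F => (MvPolynomial.comp_aeval_apply (f := x) emb F).symm
  rcases hd S hS FF (sg hq0) (emb PowerSeries.X) (fun j => emb (x j)) (dpt_of_form hq0 hx)
    (fun k hk _ => X_aperiodic hq0 hq hk) (fun F hF => by rw [hev, hX F hF, map_zero]) with
    ⟨k, hk, -, h1⟩ | h1
  · exact absurd (form_aperiodic hq0 hq hx.1 hk h1) hc
  · have h2 := h1 G hG hrat
    rw [hev] at h2
    exact emb_inj (h2.trans (map_zero _).symm)

/-- rational curves are formal curves given by `q`-difference equations -/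
theorem ratIn_of_form {S : Set (MvPolynomial (Fin (n + 1)) ℂ)}
    {G : MvPolynomial (Fin (n + 1)) ℂ} {q : ℂ} {d : ℕ}
    (h : ∀ x : Fin (n + 1) → PowerSeries ℂ, QForm 1 d q x → (∀ F ∈ S, aeval x F = 0) →
      ¬ FConst x → aeval x G = 0) : RatIn S G d := by
  classical
  intro p hp1 hp2 hp3
  let co : Polynomial ℂ →ₐ[ℂ] PowerSeries ℂ := Polynomial.coeToPowerSeries.algHom ℂ
  have hco : ∀ P : Polynomial ℂ, co P = (P : PowerSeries ℂ) := by
    intro P
    change Polynomial.coeToPowerSeries.algHom ℂ P = _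
    rw [Polynomial.coeToPowerSeries.algHom_apply]
    ext i
    simp
  have hcoinj : Function.Injective co := by
    intro a b hab
    rw [hco, hco] at hab
    exact Polynomial.coe_injective ℂ hab
  have hev : ∀ F : MvPolynomial (Fin (n + 1)) ℂ, aeval (fun j => (p j : PowerSeries ℂ)) F =
      co (aeval p F) := by
    intro F
    rw [MvPolynomial.comp_aeval_apply]
    exact congrArg (fun w => aeval w F) (funext fun j => (hco (p j)).symm)
  obtain ⟨s, t, i, j, hst⟩ := hp3
  have h1 := h (fun j => (p j : PowerSeries ℂ)) ⟨fun h0 => ?_, fun j => ?_⟩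
    (fun F hF => by rw [hev, hp2 F hF, map_zero]) ?_
  · rw [hev] at h1
    exact hcoinj (h1.trans (map_zero _).symm)
  · apply hst
    have h2 : ∀ l, p l = 0 := fun l => Polynomial.coe_injective ℂ (by
      rw [Polynomial.coe_zero]
      exact congrFun h0 l)
    rw [h2 i, h2 j, Polynomial.eval_zero, Polynomial.eval_zero]
  · -- the equation
    by_cases h0 : p j = 0
    · refine ⟨fun _ => 1, ⟨0, Nat.zero_le _, one_ne_zero⟩, fun k => by simp, ?_⟩
      refine Finset.sum_eq_zero fun k _ => ?_
      beta_reduce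
      rw [h0, Polynomial.coe_zero, map_zero, mul_zero]
    · refine ⟨fun k => if k = 0 then -((p j).comp (Polynomial.C q * Polynomial.X)) else p j,
        ⟨1, le_rfl, by simpa using h0⟩, fun k => ?_, ?_⟩
      · by_cases hk : k = 0
        · simp only [if_pos hk]
          rw [Polynomial.natDegree_neg]
          refine Polynomial.natDegree_comp_le.trans ?_
          calc (p j).natDegree * (Polynomial.C q * Polynomial.X : Polynomial ℂ).natDegree ≤
              d * 1 := Nat.mul_le_mul (hp1 j) ((Polynomial.natDegree_C_mul_le _ _).trans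
                Polynomial.natDegree_X_le)
            _ = d := mul_one d
        · simp only [if_neg hk]
          exact hp1 j
      · have h2 : ((p j).comp (Polynomial.C q * Polynomial.X) : PowerSeries ℂ) =
            PowerSeries.rescale q (p j : PowerSeries ℂ) := by
          ext i
          rw [PowerSeries.coeff_rescale, Polynomial.coeff_coe, Polynomial.coeff_coe,
            Polynomial.comp_C_mul_X_coeff, mul_comm]
        rw [Finset.sum_range_succ, Finset.sum_range_one]
        beta_reduce
        rw [if_pos rfl, if_neg one_ne_zero, Polynomial.coe_neg, h2, pow_zero, pow_one,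
          PowerSeries.rescale_one]
        simp only [RingHom.id_apply]
        ring
  · rintro ⟨g, c, hgc⟩
    beta_reduce at hgc
    apply hst
    have h2 : ∀ a b, Polynomial.C (c a) * p b = Polynomial.C (c b) * p a := by
      intro a b
      apply Polynomial.coe_injective ℂ
      rw [Polynomial.coe_mul, Polynomial.coe_mul, Polynomial.coe_C, Polynomial.coe_C, hgc, hgc]
      ring
    by_cases hc : c j = 0
    · have h3 : p j = 0 := by
        apply Polynomial.coe_injective ℂ
        rw [hgc, hc, map_zero, zero_mul, Polynomial.coe_zero]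
      rw [h3, Polynomial.eval_zero, Polynomial.eval_zero]
      ring
    · have h3 := fun w => congrArg (Polynomial.eval w) (h2 j i)
      simp only [Polynomial.eval_mul, Polynomial.eval_C] at h3
      apply mul_left_cancel₀ hc
      linear_combination (p j).eval t * h3 s - (p j).eval s * h3 t

end Pool.Agent.Q309.DF
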